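import Pool.Agent.W602.RG.Stm

set_option autoImplicit false

namespace Pool.Agent.W621.RG.LCM

open FF Pool.Agent.W603.LV Pool.Agent.W602.RG

section

variable {L Ω E : Type} [Field L] [Field Ω] [Field E] [Algebra L E] [Algebra Ω E]

theorem Wr_eq_wr (D : Derivation L E E) {r : ℕ} (g : Fin r → E) : Wr D g = wr D g := by
  unfold Wr wr
  rw [← Matrix.det_transpose]
  rfl

theorem Wr_smul (D : Derivation L E E) {r : ℕ} (c : E) (g : Fin r → E) :
    Wr D (fun i => c * g i) = c ^ r * Wr D g := by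
  have h := wr_change D 1 c g
  rw [one_smul] at h
  rw [Wr_eq_wr, h, Wr_eq_wr]
  simp

theorem iter_Ge (D : Derivation L E E) (P : Place Ω E) (hM : Mov D P) (f : E) (N : ℤ)
    (hf : Ge P N f) (i : ℕ) : Ge P (N - i) ((⇑D)^[i] f) := by
  induction i with
  | zero => simpa using hf
  | succ i ih =>
    rw [Function.iterate_succ_apply']
    by_cases h0 : D ((⇑D)^[i] f) = 0
    · exact Or.inl h0
    · right
      have h1 := hM.1 _ h0
      rcases ih with h2 | h2
      · exact absurd (by rw [h2, map_zero]) h0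
      · push_cast
        linarith

theorem iter_Ge0 (D : Derivation L E E) (P : Place Ω E) (hM : Mov D P) (f : E)
    (hf : Ge P 0 f) (i : ℕ) : Ge P 0 ((⇑D)^[i] f) := by
  induction i with
  | zero => simpa using hf
  | succ i ih =>
    rw [Function.iterate_succ_apply']
    by_cases h0 : D ((⇑D)^[i] f) = 0
    · exact Or.inl h0
    · right
      rcases ih with h2 | h2
      · exact absurd (by rw [h2, map_zero]) h0
      · exact hM.2.1 _ h2 h0

theorem key (D : Derivation L E E) (P : Place Ω E) (hM : Mov D P) (r : ℕ) (h : Fin r → E)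
    (h0 : ∀ i, 0 ≤ P.ord (h i)) :
    Ge P (∑ i, (P.ord (h i) - ((r : ℤ) - 1) * (if 0 < P.ord (h i) then 1 else 0))) (Wr D h) := by
  unfold Wr
  rw [Matrix.det_apply]
  apply Ge.sum
  intro σ _
  have h1 : Ge P (∑ i, (P.ord (h i) - ((r : ℤ) - 1) * (if 0 < P.ord (h i) then 1 else 0)))
      (∏ i, Matrix.of (fun i j : Fin r => (⇑D)^[(i : ℕ)] (h j)) (σ i) i) := by
    apply Ge.prod
    intro i _
    rw [Matrix.of_apply]
    split_ifs with hi
    · have h2 := iter_Ge D P hM (h i) (P.ord (h i)) (Or.inr le_rfl) (σ i : ℕ)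
      refine Ge.mono ?_ h2
      have h3 : ((σ i : ℕ) : ℤ) ≤ (r : ℤ) - 1 := by
        have := (σ i).2
        omega
      linarith
    · have h4 : P.ord (h i) = 0 := le_antisymm (not_lt.1 hi) (h0 i)
      rw [h4]
      simp only [mul_zero, sub_zero]
      exact iter_Ge0 D P hM (h i) (Or.inr (h0 i)) _
  rcases Int.units_eq_one_or (Equiv.Perm.sign σ) with hs | hs
  · rw [hs, one_smul]; exact h1
  · rw [hs]
    have : ((-1 : ℤˣ) • ∏ i, Matrix.of (fun i j : Fin r => (⇑D)^[(i : ℕ)] (h j)) (σ i) i) =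
      -∏ i, Matrix.of (fun i j : Fin r => (⇑D)^[(i : ℕ)] (h j)) (σ i) i := by
      simp
    rw [this]
    exact h1.neg

end

theorem main : S_LCM := by
  intro L Ω E _ _ _ _ _ _ D P hM r g m hg hm hW
  classical
  obtain ⟨π, hπ0, hπ1⟩ := P.surj
  have hπm : π ^ m ≠ 0 := zpow_ne_zero _ hπ0
  have hom : P.ord (π ^ m) = m := by rw [P.ord_zpow, hπ1, mul_one]
  set h : Fin r → E := fun i => (π ^ m)⁻¹ * g i with hh
  have hgi : ∀ i, g i = π ^ m * h i := by
    intro i
    rw [hh]
    simp only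
    rw [← mul_assoc, mul_inv_cancel₀ hπm, one_mul]
  have hne : ∀ i, h i ≠ 0 := fun i => mul_ne_zero (inv_ne_zero hπm) (hg i)
  have hord : ∀ i, P.ord (g i) = m + P.ord (h i) := by
    intro i
    rw [hgi i, P.ord_mul hπm (hne i), hom]
  have hWr : Wr D g = (π ^ m) ^ r * Wr D h := by
    rw [← Wr_smul]
    congr 1
    funext i
    exact hgi i
  have hWh : Wr D h ≠ 0 := by
    intro h0
    apply hW
    rw [hWr, h0, mul_zero]
  have hk := key D P hM r h (fun i => by have := hm i; rw [hord i] at this; linarith)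
  rcases hk with hk | hk
  · exact absurd hk hWh
  rw [hWr, P.ord_mul (pow_ne_zero _ hπm) hWh, P.ord_pow, hom]
  have e1 : ∑ i, P.ord (g i) = r * m + ∑ i, P.ord (h i) := by
    rw [Finset.sum_congr rfl (fun i _ => hord i), Finset.sum_add_distrib]
    simp
  have e2 : (Finset.univ.filter fun i => m < P.ord (g i)) =
      (Finset.univ.filter fun i => 0 < P.ord (h i)) := by
    ext i
    simp only [Finset.mem_filter, Finset.mem_univ, true_and]
    rw [hord i]
    constructor <;> intro h <;> linarith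
  have e3 : ∑ i, (P.ord (h i) - ((r : ℤ) - 1) * (if 0 < P.ord (h i) then 1 else 0)) =
      ∑ i, P.ord (h i) - ((r : ℤ) - 1) * (Finset.univ.filter fun i => 0 < P.ord (h i)).card := by
    rw [Finset.sum_sub_distrib, ← Finset.mul_sum]
    congr 2
    simp
  rw [e3] at hk
  rw [e1, e2]
  linarith

end Pool.Agent.W621.RG.LCM
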